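import Pool.Agent.Helper35.FS.Cut

/-!
# The weight of the patterns with few cuts
-/

set_option autoImplicit false
set_option linter.unusedSectionVars false

namespace Pool.Agent.Helper35.FS

open Finset

variable {Q : Type*} [DecidableEq Q] [Fintype Q]

/-- a finite pattern, continued by lazy letters -/
def ext {N : ℕ} (g : Fin N → Option (Q × Bool)) (t : ℕ) : Option (Q × Bool) :=
  if h : t < N then g ⟨t, h⟩ else none

/-- the cost of a letter -/
def cst (s : List (Q × Bool)) (o : Option (Q × Bool)) : ℕ :=
  (if o = none then 1 else 0) + 4 * (if (stp s o).length < s.length then 1 else 0)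

theorem step_bound (p : Option (Q × Bool) → ℝ) (h1 : ∑ o, p o = 1)
    (hn : p none ≤ 1 / 32) (hl : ∀ l, p (some l) ≤ 1 / 2 ^ 17) (s : List (Q × Bool)) :
    ∑ o, p o * 16 ^ cst s o ≤ 2 := by
  have hpt : ∀ o, p o * 16 ^ cst s o ≤ p o + (if o = none then 15 * p none else 0) +
      (if (stp s o).length < s.length then 65535 * p o else 0) := by
    intro o
    rcases stp_cases s o with h | ⟨l, h3, h, h2⟩ | ⟨l, a, h3, h, h4, h5⟩
    · have h6 : cst s o = 1 := by
        unfold cst
        rw [if_pos h.1, h.2, if_neg (lt_irrefl _)]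
      rw [h6, if_pos h.1, h.2, if_neg (lt_irrefl _), h.1]
      linarith
    · have h6 : ¬ (stp s o).length < s.length := by
        rw [h, List.length_cons]
        omega
      have h7 : o ≠ none := by
        rw [h3]
        simp
      have h8 : cst s o = 0 := by
        unfold cst
        rw [if_neg h7, if_neg h6]
      rw [h8, if_neg h7, if_neg h6]
      linarith
    · have h6 : (stp s o).length < s.length := by
        conv_rhs => rw [h]
        rw [List.length_cons]
        exact Nat.lt_succ_self _
      have h7 : o ≠ none := by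
        rw [h3]
        simp
      have h8 : cst s o = 4 := by
        unfold cst
        rw [if_neg h7, if_pos h6]
      rw [h8, if_neg h7, if_pos h6]
      linarith
  have hs1 : ∑ o : Option (Q × Bool), (if o = none then 15 * p none else 0) = 15 * p none := by
    rw [sum_ite_eq' univ none fun _ => 15 * p none, if_pos (mem_univ _)]
  have hs2 : ∑ o : Option (Q × Bool), (if (stp s o).length < s.length then 65535 * p o else 0) ≤
      65535 / 2 ^ 17 := by
    rw [← sum_filter]
    have h2 : #{o : Option (Q × Bool) | (stp s o).length < s.length} ≤ 1 := by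
      rw [card_le_one]
      intro o ho o' ho'
      rw [mem_filter] at ho ho'
      have key : ∀ o : Option (Q × Bool), (stp s o).length < s.length →
          ∃ t s', s = t :: s' ∧ o = some (t.1, !t.2) := by
        intro o ho
        rcases stp_cases s o with h | ⟨l, h3, h, h2⟩ | ⟨l, a, h3, h, h4, h5⟩
        · rw [h.2] at ho
          exact absurd ho (lt_irrefl _)
        · rw [h, List.length_cons] at ho
          omega
        · exact ⟨a, _, h, by rw [h3]; congr 1; exact Prod.ext h4 h5⟩
      obtain ⟨t, s', h3, h4⟩ := key o ho.2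
      obtain ⟨t', s'', h5, h6⟩ := key o' ho'.2
      rw [h3] at h5
      injection h5 with h7 h8
      rw [h4, h6, h7]
    calc ∑ o with (stp s o).length < s.length, 65535 * p o
        ≤ ∑ o : Option (Q × Bool) with (stp s o).length < s.length, (65535 / 2 ^ 17 : ℝ) := by
          apply sum_le_sum
          intro o ho
          rw [mem_filter] at ho
          rcases o with _ | l
          · exfalso
            rcases s with _ | ⟨a, s⟩ <;> exact absurd ho.2 (lt_irrefl _)
          · have := hl l
            linarith
      _ = #{o : Option (Q × Bool) | (stp s o).length < s.length} * (65535 / 2 ^ 17 : ℝ) := by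
          rw [sum_const, nsmul_eq_mul]
      _ ≤ 1 * (65535 / 2 ^ 17 : ℝ) := by
          apply mul_le_mul_of_nonneg_right _ (by norm_num)
          exact_mod_cast h2
      _ = _ := one_mul _
  calc ∑ o, p o * 16 ^ cst s o ≤ ∑ o, (p o + (if o = none then 15 * p none else 0) +
      (if (stp s o).length < s.length then 65535 * p o else 0)) := sum_le_sum fun o _ => hpt o
    _ = 1 + 15 * p none + ∑ o : Option (Q × Bool),
        (if (stp s o).length < s.length then 65535 * p o else 0) := by
        rw [sum_add_distrib, sum_add_distrib, h1, hs1]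
    _ ≤ 1 + 15 * (1 / 32) + 65535 / 2 ^ 17 := by linarith
    _ ≤ 2 := by norm_num

theorem st_congr (g g' : ℕ → Option (Q × Bool)) : ∀ N, (∀ t, t < N → g t = g' t) →
    st g N = st g' N
  | 0, _ => rfl
  | N + 1, h => by
    show stp (st g N) (g N) = stp (st g' N) (g' N)
    rw [st_congr g g' N fun t ht => h t (by omega), h N (by omega)]

theorem cost_congr (g g' : ℕ → Option (Q × Bool)) (N : ℕ) (h : ∀ t, t < N → g t = g' t) :
    lz g N + 4 * pops g N = lz g' N + 4 * pops g' N := by
  have h1 : lz g N = lz g' N := by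
    unfold lz
    congr 1
    apply filter_congr
    intro t ht
    rw [mem_range] at ht
    rw [h t ht]
  have h2 : pops g N = pops g' N := by
    unfold pops
    congr 1
    apply filter_congr
    intro t ht
    rw [mem_range] at ht
    rw [st_congr g g' (t + 1) fun s hs => h s (by omega), st_congr g g' t fun s hs => h s (by omega)]
  rw [h1, h2]

theorem cost_succ (g : ℕ → Option (Q × Bool)) (N : ℕ) :
    lz g (N + 1) + 4 * pops g (N + 1) = lz g N + 4 * pops g N + cst (st g N) (g N) := by
  have h1 : st g (N + 1) = stp (st g N) (g N) := rfl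
  unfold lz pops cst
  rw [range_add_one, filter_insert, filter_insert, ← h1]
  by_cases h2 : g N = none
  · by_cases h3 : (st g (N + 1)).length < (st g N).length
    · rw [if_pos h2, if_pos h3, if_pos h2, if_pos h3, card_insert_of_notMem (by simp),
        card_insert_of_notMem (by simp)]
      ring
    · rw [if_pos h2, if_neg h3, if_pos h2, if_neg h3, card_insert_of_notMem (by simp)]
      ring
  · by_cases h3 : (st g (N + 1)).length < (st g N).length
    · rw [if_neg h2, if_pos h3, if_neg h2, if_pos h3, card_insert_of_notMem (by simp)]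
      ring
    · rw [if_neg h2, if_neg h3, if_neg h2, if_neg h3]
      ring

theorem sum_snoc {Λ : Type*} [Fintype Λ] {M : ℕ} (f : (Fin (M + 1) → Λ) → ℝ) :
    ∑ ls, f ls = ∑ ls' : Fin M → Λ, ∑ l, f (Fin.snoc ls' l) := by
  rw [← (Fin.snocEquiv (fun _ : Fin (M + 1) => Λ)).sum_comp, Fintype.sum_prod_type, sum_comm]
  rfl

theorem ext_snoc_lt {N : ℕ} (g : Fin N → Option (Q × Bool)) (o : Option (Q × Bool)) (t : ℕ)
    (ht : t < N) : ext (Fin.snoc g o : Fin (N + 1) → Option (Q × Bool)) t = ext g t := by
  unfold ext
  rw [dif_pos ht, dif_pos (by omega)]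
  have : (⟨t, by omega⟩ : Fin (N + 1)) = Fin.castSucc ⟨t, ht⟩ := rfl
  rw [this, Fin.snoc_castSucc]

theorem ext_snoc_eq {N : ℕ} (g : Fin N → Option (Q × Bool)) (o : Option (Q × Bool)) :
    ext (Fin.snoc g o : Fin (N + 1) → Option (Q × Bool)) N = o := by
  unfold ext
  rw [dif_pos (by omega)]
  have : (⟨N, by omega⟩ : Fin (N + 1)) = Fin.last N := rfl
  rw [this, Fin.snoc_last]

/-- slot weights -/
structure PW (p : Option (Q × Bool) → ℝ) : Prop where
  nn : ∀ o, 0 ≤ p o
  one : ∑ o, p o = 1
  lazy : p none ≤ 1 / 32
  small : ∀ l, p (some l) ≤ 1 / 2 ^ 17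

theorem cost_sum : ∀ (N : ℕ) (p : Fin N → Option (Q × Bool) → ℝ), (∀ k, PW (p k)) →
    ∑ g : Fin N → Option (Q × Bool), (∏ k, p k (g k)) *
      16 ^ (lz (ext g) N + 4 * pops (ext g) N) ≤ 2 ^ N
  | 0, p, _ => by
    rw [Fintype.sum_eq_single (fun k => k.elim0)]
    · simp [lz, pops]
    · intro ls hls
      exact absurd (Subsingleton.elim _ _) hls
  | N + 1, p, hp => by
    rw [sum_snoc]
    have h1 : ∀ (g : Fin N → Option (Q × Bool)) (o : Option (Q × Bool)),
        (∏ k, p k ((Fin.snoc g o : Fin (N + 1) → Option (Q × Bool)) k)) *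
          16 ^ (lz (ext (Fin.snoc g o : Fin (N + 1) → Option (Q × Bool))) (N + 1) +
            4 * pops (ext (Fin.snoc g o : Fin (N + 1) → Option (Q × Bool))) (N + 1)) =
        ((∏ k : Fin N, p k.castSucc (g k)) * 16 ^ (lz (ext g) N + 4 * pops (ext g) N)) *
          (p (Fin.last N) o * 16 ^ cst (st (ext g) N) o) := by
      intro g o
      rw [Fin.prod_univ_castSucc, cost_succ, ext_snoc_eq, Fin.snoc_last,
        cost_congr _ (ext g) N fun t ht => ext_snoc_lt g o t ht,
        st_congr _ (ext g) N fun t ht => ext_snoc_lt g o t ht, pow_add]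
      rw [prod_congr rfl fun k _ => by rw [Fin.snoc_castSucc]]
      ring
    rw [sum_congr rfl fun g _ => sum_congr rfl fun o _ => h1 g o]
    calc ∑ g : Fin N → Option (Q × Bool), ∑ o, ((∏ k : Fin N, p k.castSucc (g k)) *
          16 ^ (lz (ext g) N + 4 * pops (ext g) N)) * (p (Fin.last N) o * 16 ^ cst (st (ext g) N) o)
        ≤ ∑ g : Fin N → Option (Q × Bool), ((∏ k : Fin N, p k.castSucc (g k)) *
          16 ^ (lz (ext g) N + 4 * pops (ext g) N)) * 2 := by
          apply sum_le_sum
          intro g _
          rw [← mul_sum]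
          apply mul_le_mul_of_nonneg_left
          · exact step_bound _ (hp _).one (hp _).lazy (hp _).small _
          · exact mul_nonneg (prod_nonneg fun k _ => (hp _).nn _) (by positivity)
      _ ≤ 2 ^ N * 2 := by
          rw [← sum_mul]
          exact mul_le_mul_of_nonneg_right (cost_sum N _ fun k => hp k.castSucc) (by norm_num)
      _ = 2 ^ (N + 1) := by rw [pow_succ]

/-- the patterns with few cuts -/
def Few {N : ℕ} (g : Fin N → Option (Q × Bool)) : Prop := 2 * #(cuts (ext g) N) + 2 < N

open Classical in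
theorem few_le {N : ℕ} (p : Fin N → Option (Q × Bool) → ℝ) (hp : ∀ k, PW (p k)) :
    ∑ g : Fin N → Option (Q × Bool) with Few g, ∏ k, p k (g k) ≤ (1 / 2) ^ N := by
  have h1 := cost_sum N p hp
  have h2 : (4 : ℝ) ^ N * ∑ g : Fin N → Option (Q × Bool) with Few g, ∏ k, p k (g k) ≤
      ∑ g : Fin N → Option (Q × Bool), (∏ k, p k (g k)) *
      16 ^ (lz (ext g) N + 4 * pops (ext g) N) := by
    rw [mul_sum, sum_filter]
    apply sum_le_sum
    intro g _
    have h3 : 0 ≤ ∏ k, p k (g k) := prod_nonneg fun k _ => (hp k).nn _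
    split_ifs with h4
    · rw [mul_comm]
      apply mul_le_mul_of_nonneg_left _ h3
      have h5 := cuts_ge (ext g) N
      have h6 : 2 * #(cuts (ext g) N) + 2 < N := h4
      have h7 : (16 : ℝ) ^ (lz (ext g) N + 4 * pops (ext g) N) =
          4 ^ (2 * (lz (ext g) N + 4 * pops (ext g) N)) := by
        rw [pow_mul]
        norm_num
      rw [h7]
      apply pow_le_pow_right₀ (by norm_num)
      omega
    · exact mul_nonneg h3 (by positivity)
  have h3 := h2.trans h1
  have h4 : (0 : ℝ) < 4 ^ N := by positivity
  have h5 : ((1 : ℝ) / 2) ^ N = 2 ^ N / 4 ^ N := by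
    rw [← div_pow]
    norm_num
  rw [h5, le_div_iff₀ h4]
  linarith

/-- the marginal law of the pattern slots -/
theorem marginal {Lam O : Type*} [Fintype Lam] [Fintype O] [DecidableEq O] {M N : ℕ}
    (S : Fin M → Lam → ℝ) (h1 : ∀ k, ∑ l, S k l = 1) (sl : Fin N → Fin M)
    (hsl : Function.Injective sl) (φ : Lam → O) (F : (Fin N → O) → ℝ) :
    ∑ ls : Fin M → Lam, (∏ k, S k (ls k)) * F (fun i => φ (ls (sl i))) =
      ∑ g : Fin N → O, (∏ i, ∑ l with φ l = g i, S (sl i) l) * F g := by
  classical
  have h2 : ∀ g : Fin N → O, ∑ ls : Fin M → Lam with (fun i => φ (ls (sl i))) = g,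
      ∏ k, S k (ls k) = ∏ i, ∑ l with φ l = g i, S (sl i) l := by
    intro g
    obtain ⟨T, hT⟩ : ∃ T : Fin M → Finset Lam, T = fun k =>
        univ.filter fun l => ∀ i, sl i = k → φ l = g i := ⟨_, rfl⟩
    have h3 : ({ls : Fin M → Lam | (fun i => φ (ls (sl i))) = g} : Finset _) =
        Fintype.piFinset T := by
      ext ls
      rw [mem_filter, Fintype.mem_piFinset]
      constructor
      · rintro ⟨_, h⟩ k
        rw [hT]
        simp only [mem_filter, mem_univ, true_and]
        intro i hi
        rw [← hi]
        exact congrFun h i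
      · intro h
        refine ⟨mem_univ _, funext fun i => ?_⟩
        have := h (sl i)
        rw [hT] at this
        simp only [mem_filter, mem_univ, true_and] at this
        exact this i rfl
    rw [h3, ← prod_univ_sum]
    have h4 : ∀ k, k ∉ univ.image sl → ∑ l ∈ T k, S k l = 1 := by
      intro k hk
      rw [← h1 k, hT]
      apply sum_congr _ fun _ _ => rfl
      rw [filter_eq_self]
      intro l _ i hi
      exact absurd (mem_image.2 ⟨i, mem_univ _, hi⟩) hk
    have h5 : ∏ k, ∑ l ∈ T k, S k l = ∏ k ∈ univ.image sl, ∑ l ∈ T k, S k l := by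
      symm
      apply prod_subset (subset_univ _)
      intro k _ hk
      exact h4 k hk
    rw [h5, prod_image fun a _ b _ h => hsl h]
    apply prod_congr rfl
    intro i _
    rw [hT]
    apply sum_congr _ fun _ _ => rfl
    apply filter_congr
    intro l _
    constructor
    · exact fun h => h i rfl
    · intro h j hj
      rw [hsl hj]
      exact h
  rw [← sum_fiberwise univ (fun ls : Fin M → Lam => fun i => φ (ls (sl i)))]
  apply sum_congr rfl
  intro g _
  rw [← h2 g, sum_mul]
  apply sum_congr rfl
  intro ls hls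
  rw [mem_filter] at hls
  rw [hls.2]

end Pool.Agent.Helper35.FS
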