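import Mathlib

/-!
# Cut vertices of a pattern

A pattern is a sequence `g : ℕ → Option (Q × Bool)` of letters (`none` is the lazy letter). `st g t` is
the reduced word of the first `t` letters (the newest letter first), `hp g t` their product in the
free group. A cut is a pair of slots `i < j` with only lazy letters in between such that the vertex
`hp g (i + 1)` is visited exactly at the times `i + 1 ≤ t ≤ j` and `g j` is not the inverse of `g i`.
Every pattern has at least `N - #lazy - 4 #pops - 1` cuts.
-/

set_option autoImplicit false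
set_option linter.unusedSectionVars false

namespace Pool.Agent.Helper35.FS

open Finset

variable {Q : Type*} [DecidableEq Q]

/-- one step of the reduced word, the newest letter first -/
def stp : List (Q × Bool) → Option (Q × Bool) → List (Q × Bool)
  | s, none => s
  | [], some l => [l]
  | t :: s, some l => if l.1 = t.1 ∧ l.2 = !t.2 then s else l :: t :: s

/-- the reduced word of the first `t` letters, the newest letter first -/
def st (g : ℕ → Option (Q × Bool)) : ℕ → List (Q × Bool)
  | 0 => []
  | t + 1 => stp (st g t) (g t)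

/-- a letter as an element of the free group -/
def ltr : Option (Q × Bool) → FreeGroup Q
  | none => 1
  | some l => FreeGroup.mk [l]

/-- the product of the first `t` letters -/
def hp (g : ℕ → Option (Q × Bool)) : ℕ → FreeGroup Q
  | 0 => 1
  | t + 1 => hp g t * ltr (g t)

/-- the number of lazy letters -/
def lz (g : ℕ → Option (Q × Bool)) (N : ℕ) : ℕ := #{t ∈ range N | g t = none}

/-- the number of cancellations -/
def pops (g : ℕ → Option (Q × Bool)) (N : ℕ) : ℕ :=
  #{t ∈ range N | (st g (t + 1)).length < (st g t).length}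

theorem stp_cases (s : List (Q × Bool)) (o : Option (Q × Bool)) :
    (o = none ∧ stp s o = s) ∨
    (∃ l, o = some l ∧ stp s o = l :: s ∧ ∀ t s', s = t :: s' → ¬ (l.1 = t.1 ∧ l.2 = !t.2)) ∨
    (∃ l t, o = some l ∧ s = t :: stp s o ∧ l.1 = t.1 ∧ l.2 = !t.2) := by
  rcases o with _ | l
  · left
    cases s <;> exact ⟨rfl, rfl⟩
  · right
    rcases s with _ | ⟨t, s⟩
    · left
      exact ⟨l, rfl, rfl, fun t s' h => by cases h⟩
    · by_cases h : l.1 = t.1 ∧ l.2 = !t.2
      · right
        refine ⟨l, t, rfl, ?_, h.1, h.2⟩
        show t :: s = t :: (if l.1 = t.1 ∧ l.2 = !t.2 then s else l :: t :: s)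
        rw [if_pos h]
      · left
        refine ⟨l, rfl, ?_, ?_⟩
        · show (if l.1 = t.1 ∧ l.2 = !t.2 then s else l :: t :: s) = _
          rw [if_neg h]
        · intro t' s' he
          injection he with h1 h2
          rw [← h1]
          exact h

theorem st_red (g : ℕ → Option (Q × Bool)) : ∀ t, FreeGroup.IsReduced (st g t)
  | 0 => FreeGroup.IsReduced.nil
  | t + 1 => by
    have ih := st_red g t
    have h1 : st g (t + 1) = stp (st g t) (g t) := rfl
    rcases stp_cases (st g t) (g t) with h | ⟨l, _, h, h2⟩ | ⟨l, a, _, h, _⟩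
    · rw [h1, h.2]
      exact ih
    · rw [h1, h]
      rcases hs : st g t with _ | ⟨a, s⟩
      · exact FreeGroup.IsReduced.singleton
      · rw [hs] at ih
        rw [FreeGroup.isReduced_cons_cons]
        refine ⟨fun h3 => ?_, ih⟩
        have h4 := h2 a s hs
        by_contra h5
        apply h4
        refine ⟨h3, ?_⟩
        cases h6 : l.2 <;> cases h7 : a.2 <;> simp_all
    · rw [h] at ih
      rw [h1]
      exact List.IsChain.tail ih

theorem hp_eq (g : ℕ → Option (Q × Bool)) : ∀ t, hp g t = FreeGroup.mk (st g t).reverse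
  | 0 => rfl
  | t + 1 => by
    have ih := hp_eq g t
    have h1 : st g (t + 1) = stp (st g t) (g t) := rfl
    have h0 : hp g (t + 1) = hp g t * ltr (g t) := rfl
    rcases stp_cases (st g t) (g t) with h | ⟨l, h3, h, h2⟩ | ⟨l, a, h3, h, h4, h5⟩
    · rw [h0, h1, h.2, h.1, ih]
      show _ * 1 = _
      rw [mul_one]
    · rw [h0, h1, h, h3, ih]
      show _ * FreeGroup.mk [l] = _
      rw [FreeGroup.mul_mk, List.reverse_cons]
    · rw [h0, h3, ih, h1]
      show _ * FreeGroup.mk [l] = _
      have h6 : (st g t).reverse = (stp (st g t) (g t)).reverse ++ [a] := by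
        conv_lhs => rw [h]
        rw [List.reverse_cons]
      rw [h6, ← FreeGroup.mul_mk, mul_assoc]
      have h7 : (FreeGroup.mk [a] * FreeGroup.mk [l] : FreeGroup Q) = 1 := by
        have h8 : l = (a.1, !a.2) := Prod.ext h4 h5
        rw [h8, FreeGroup.mul_mk]
        have h9 : FreeGroup.Red.Step ([a] ++ [(a.1, !a.2)]) [] := by
          have := @FreeGroup.Red.Step.not Q [] [] a.1 a.2
          simpa using this
        exact FreeGroup.Red.exact.2 ⟨[], Relation.ReflTransGen.single h9, Relation.ReflTransGen.refl⟩
      rw [h7, mul_one]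

theorem hp_iff (g : ℕ → Option (Q × Bool)) (s t : ℕ) : hp g s = hp g t ↔ st g s = st g t := by
  constructor
  · intro h
    rw [hp_eq, hp_eq] at h
    have h1 := FreeGroup.reduce.sound h
    have h2 : ∀ t, FreeGroup.IsReduced (st g t).reverse := fun t => by
      unfold FreeGroup.IsReduced
      rw [List.isChain_reverse]
      refine List.IsChain.imp ?_ (st_red g t)
      intro a b h3 h4
      exact (h3 h4.symm).symm
    rw [(h2 s).reduce_eq, (h2 t).reduce_eq] at h1
    exact List.reverse_injective h1
  · intro h
    rw [hp_eq, hp_eq, h]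

theorem len_eq (g : ℕ → Option (Q × Bool)) (N : ℕ) :
    (st g N).length + 2 * pops g N + lz g N = N := by
  induction N with
  | zero => simp [pops, lz, st]
  | succ N ih =>
    have h1 : st g (N + 1) = stp (st g N) (g N) := rfl
    unfold pops lz at ih ⊢
    rw [range_add_one, filter_insert, filter_insert]
    rcases stp_cases (st g N) (g N) with h | ⟨l, h3, h, h2⟩ | ⟨l, a, h3, h, h4, h5⟩
    · rw [if_neg (by rw [h1, h.2]; exact lt_irrefl _), if_pos h.1,
        card_insert_of_notMem (by simp), h1, h.2]
      omega
    · rw [if_neg (by rw [h1, h]; simp), if_neg (by rw [h3]; simp), h1, h, List.length_cons]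
      omega
    · have h6 : (st g N).length = (st g (N + 1)).length + 1 := by
        conv_lhs => rw [h]
        rw [h1, List.length_cons]
      rw [if_pos (by rw [h6]; exact Nat.lt_succ_self _), if_neg (by rw [h3]; simp),
        card_insert_of_notMem (by simp)]
      omega

/-- a cut: the vertex `hp g (i + 1)` is visited in one time interval, between the arrival slot `i`
and the departure slot `j` -/
structure Cut (g : ℕ → Option (Q × Bool)) (N i j : ℕ) : Prop where
  lt : i < j
  jN : j < N
  ai : g i ≠ none
  aj : g j ≠ none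
  lazy : ∀ k, i < k → k < j → g k = none
  uniq : ∀ t, t ≤ N → (hp g t = hp g (i + 1) ↔ i + 1 ≤ t ∧ t ≤ j)
  ne : ∀ l m, g i = some l → g j = some m → ¬ (m.1 = l.1 ∧ m.2 = !l.2)

theorem exists_cut (g : ℕ → Option (Q × Bool)) (N : ℕ) (v : List (Q × Bool)) (hv : v ≠ [])
    (hN : v <:+ st g N) (hN2 : st g N ≠ v)
    (hsp : ∀ t, t < N → (st g (t + 1)).length < (st g t).length → st g t ≠ v ∧ st g (t + 1) ≠ v) :
    ∃ i j, Cut g N i j ∧ st g (i + 1) = v := by
  have hex : ∃ t, v <:+ st g t := ⟨N, hN⟩
  obtain ⟨t0, ht0⟩ : ∃ t0, t0 = Nat.find hex := ⟨_, rfl⟩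
  have hs0 : v <:+ st g t0 := by
    rw [ht0]
    exact Nat.find_spec hex
  have hmin : ∀ t, t < t0 → ¬ v <:+ st g t := fun t ht => by
    rw [ht0] at ht
    exact Nat.find_min hex ht
  have h0N : t0 ≤ N := by
    rw [ht0]
    exact Nat.find_min' hex hN
  rcases t0 with _ | i
  · exfalso
    apply hv
    exact List.suffix_nil.1 hs0
  have hi1 : st g (i + 1) = stp (st g i) (g i) := rfl
  have hni := hmin i (Nat.lt_succ_self i)
  -- the arrival
  obtain ⟨l, hl, hvl⟩ : ∃ l, g i = some l ∧ v = l :: st g i ∧ st g (i + 1) = v := by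
    rcases stp_cases (st g i) (g i) with h | ⟨l, h3, h, h2⟩ | ⟨l, a, h3, h, h4, h5⟩
    · exfalso
      rw [hi1, h.2] at hs0
      exact hni hs0
    · rw [hi1, h] at hs0
      rcases List.suffix_cons_iff.1 hs0 with h6 | h6
      · exact ⟨l, h3, h6, by rw [hi1, h, h6]⟩
      · exact absurd h6 hni
    · exfalso
      apply hni
      rw [h]
      exact hs0.trans (List.suffix_cons _ _)
  -- the vertex stays below
  have hA : ∀ t, i + 1 ≤ t → t ≤ N → v <:+ st g t := by
    intro t ht
    induction t, ht using Nat.le_induction with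
    | base => exact fun _ => hs0
    | succ t ht ih =>
      intro htN
      have ih' := ih (by omega)
      have h1 : st g (t + 1) = stp (st g t) (g t) := rfl
      rcases stp_cases (st g t) (g t) with h | ⟨l, h3, h, h2⟩ | ⟨l, a, h3, h, h4, h5⟩
      · rw [h1, h.2]
        exact ih'
      · rw [h1, h]
        exact ih'.trans (List.suffix_cons _ _)
      · rw [h] at ih'
        rcases List.suffix_cons_iff.1 ih' with h6 | h6
        · exfalso
          have h7 : (st g (t + 1)).length < (st g t).length := by
            conv_rhs => rw [h]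
            rw [h1, List.length_cons]
            exact Nat.lt_succ_self _
          exact (hsp t (by omega) h7).1 (h.trans h6.symm)
        · rw [h1]
          exact h6
  -- after leaving the vertex is not visited again
  have hB : ∀ t, i + 1 ≤ t → st g t ≠ v → ∀ s, t ≤ s → s ≤ N → st g s ≠ v := by
    intro t ht htv s hs
    induction s, hs using Nat.le_induction with
    | base => exact fun _ => htv
    | succ s hs ih =>
      intro hsN h6
      have ih' := ih (by omega)
      have h1 : st g (s + 1) = stp (st g s) (g s) := rfl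
      have hA' := hA s (by omega) (by omega)
      rcases stp_cases (st g s) (g s) with h | ⟨l, h3, h, h2⟩ | ⟨l, a, h3, h, h4, h5⟩
      · rw [h1, h.2] at h6
        exact ih' h6
      · rw [h1, h] at h6
        have h7 := hA'.length_le
        rw [← h6, List.length_cons] at h7
        omega
      · have h7 : (st g (s + 1)).length < (st g s).length := by
          conv_rhs => rw [h]
          rw [h1, List.length_cons]
          exact Nat.lt_succ_self _
        exact (hsp s (by omega) h7).2 h6
  obtain ⟨j, hj⟩ : ∃ j, j = Nat.findGreatest (fun t => st g t = v) N := ⟨_, rfl⟩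
  have hjv : st g j = v := by
    have := @Nat.findGreatest_spec (i + 1) (fun t => st g t = v) _ N h0N hvl.2
    rw [← hj] at this
    exact this
  have hij : i + 1 ≤ j := by
    rw [hj]
    exact Nat.le_findGreatest h0N hvl.2
  have hjN : j ≤ N := by
    rw [hj]
    exact Nat.findGreatest_le N
  have hjN' : j < N := lt_of_le_of_ne hjN fun h => hN2 (by rw [← h]; exact hjv)
  have hgr : ∀ t, j < t → t ≤ N → st g t ≠ v := fun t h1 h2 => by
    rw [hj] at h1
    exact Nat.findGreatest_is_greatest h1 h2
  have hmid : ∀ t, i + 1 ≤ t → t ≤ j → st g t = v := by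
    intro t h1 h2
    by_contra h3
    exact hB t h1 h3 j h2 hjN hjv
  -- the departure
  have hj1 : st g (j + 1) = stp (st g j) (g j) := rfl
  obtain ⟨m, hm, hm2⟩ : ∃ m, g j = some m ∧
      ∀ t s', st g j = t :: s' → ¬ (m.1 = t.1 ∧ m.2 = !t.2) := by
    rcases stp_cases (st g j) (g j) with h | ⟨l, h3, h, h2⟩ | ⟨l, a, h3, h, h4, h5⟩
    · exfalso
      apply hgr (j + 1) (by omega) (by omega)
      rw [hj1, h.2, hjv]
    · exact ⟨l, h3, h2⟩
    · exfalso
      have h7 : (st g (j + 1)).length < (st g j).length := by
        conv_rhs => rw [h]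
        rw [hj1, List.length_cons]
        exact Nat.lt_succ_self _
      exact (hsp j hjN' h7).1 hjv
  refine ⟨i, j, ⟨by omega, hjN', by rw [hl]; simp, by rw [hm]; simp, ?_, ?_, ?_⟩, hvl.2⟩
  · intro k h1 h2
    have h3 := hmid k (by omega) (by omega)
    have h4 := hmid (k + 1) (by omega) (by omega)
    have h5 : st g (k + 1) = stp (st g k) (g k) := rfl
    rcases stp_cases (st g k) (g k) with h | ⟨l, h6, h, h7⟩ | ⟨l, a, h6, h, h7, h8⟩
    · exact h.1
    · exfalso
      rw [h5, h, h3] at h4
      exact List.cons_ne_self _ _ h4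
    · exfalso
      rw [← h5, h4, h3] at h
      exact List.cons_ne_self _ _ h.symm
  · intro t ht
    rw [hp_iff, hvl.2]
    constructor
    · intro h
      constructor
      · by_contra h1
        exact hmin t (by omega) (by rw [h])
      · by_contra h1
        exact hgr t (by omega) ht h
    · exact fun h => hmid t h.1 h.2
  · intro l' m' h1 h2
    rw [hl] at h1
    rw [hm] at h2
    injection h1 with h1
    injection h2 with h2
    rw [← h1, ← h2]
    exact hm2 l (st g i) (hjv.trans hvl.1)

open Classical in
/-- the arrival slots of the cuts -/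
noncomputable def cuts (g : ℕ → Option (Q × Bool)) (N : ℕ) : Finset ℕ :=
  {i ∈ range N | ∃ j, Cut g N i j}

theorem cuts_ge (g : ℕ → Option (Q × Bool)) (N : ℕ) :
    N ≤ #(cuts g N) + lz g N + 4 * pops g N + 1 := by
  classical
  have hlen := len_eq g N
  obtain ⟨n, hn⟩ : ∃ n, n = (st g N).length := ⟨_, rfl⟩
  -- the vertex at level `k`
  obtain ⟨V, hV⟩ : ∃ V : ℕ → List (Q × Bool), V = fun k => (st g N).drop (n - k) := ⟨_, rfl⟩
  have hVlen : ∀ k, k ≤ n → (V k).length = k := fun k hk => by
    rw [hV]
    simp only [List.length_drop, ← hn]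
    omega
  obtain ⟨P, hP⟩ : ∃ P : Finset ℕ, P = {t ∈ range N | (st g (t + 1)).length < (st g t).length} :=
    ⟨_, rfl⟩
  have hPc : #P = pops g N := by
    rw [hP]
    rfl
  obtain ⟨G, hG⟩ : ∃ G : Finset ℕ, G = (Ico 1 n) \ (P.image (fun t => (st g t).length) ∪
      P.image (fun t => (st g (t + 1)).length)) := ⟨_, rfl⟩
  have hGc : n ≤ #G + 2 * pops g N + 1 := by
    have h1 := le_card_sdiff (P.image (fun t => (st g t).length) ∪
      P.image (fun t => (st g (t + 1)).length)) (Ico 1 n)
    have h2 := (card_union_le (P.image (fun t => (st g t).length))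
      (P.image (fun t => (st g (t + 1)).length))).trans (add_le_add card_image_le card_image_le)
    rw [Nat.card_Ico] at h1
    rw [hPc] at h2
    rw [hG]
    omega
  have hcut : ∀ k ∈ G, ∃ i, i ∈ cuts g N ∧ (st g (i + 1)).length = k := by
    intro k hk
    rw [hG, mem_sdiff, mem_Ico, mem_union, not_or] at hk
    obtain ⟨⟨hk1, hk2⟩, hk3, hk4⟩ := hk
    have hVk := hVlen k hk2.le
    obtain ⟨i, j, hc, hi⟩ := exists_cut g N (V k) (by
        intro h
        rw [h] at hVk
        simp at hVk
        omega) (by
        rw [hV]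
        exact List.drop_suffix _ _) (by
        intro h
        rw [← h, ← hn] at hVk
        omega) (by
        intro t ht hlt
        have htP : t ∈ P := by
          rw [hP, mem_filter, mem_range]
          exact ⟨ht, hlt⟩
        constructor
        · intro h
          apply hk3
          rw [mem_image]
          exact ⟨t, htP, by rw [h, hVk]⟩
        · intro h
          apply hk4
          rw [mem_image]
          exact ⟨t, htP, by rw [h, hVk]⟩)
    refine ⟨i, ?_, by rw [hi, hVk]⟩
    unfold cuts
    rw [mem_filter, mem_range]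
    exact ⟨by have := hc.lt; have := hc.jN; omega, j, hc⟩
  have h1 : #G ≤ #(cuts g N) := by
    have h2 : G ⊆ (cuts g N).image fun i => (st g (i + 1)).length := by
      intro k hk
      obtain ⟨i, hi, h⟩ := hcut k hk
      rw [mem_image]
      exact ⟨i, hi, h⟩
    exact (card_le_card h2).trans card_image_le
  omega

end Pool.Agent.Helper35.FS
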